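import Pool.Agent.Helper88.EL.Basic

/-!
# Lattices in `ℚ²` (modules EL-LATTICE of MP_287ff4_al)
-/

set_option autoImplicit false

namespace Pool.Agent.Helper4.EL

open Pool.Agent.Helper88.EL

theorem dq_add_right (u v w : Q2) : dq u (v + w) = dq u v + dq u w := by simp [dq]; ring
theorem dq_add_left (u v w : Q2) : dq (u + v) w = dq u w + dq v w := by simp [dq]; ring

theorem mem_comb {E : AddSubgroup Q2} {u v : Q2} (hu : u ∈ E) (hv : v ∈ E) (m n : ℤ) :
    (m:ℚ) • u + (n:ℚ) • v ∈ E := by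
  have h1 : (m:ℚ) • u = m • u := by ext i; simp
  have h2 : (n:ℚ) • v = n • v := by ext i; simp
  rw [h1, h2]
  exact E.add_mem (E.zsmul_mem hu m) (E.zsmul_mem hv n)

theorem dq_int {E : AddSubgroup Q2} (hE : Cov1 E) : ∀ u ∈ E, ∀ v ∈ E, ∃ m : ℤ, dq u v = m := by
  obtain ⟨b, b', hb, hm⟩ := hE
  intro u hu v hv
  obtain ⟨m, n, rfl⟩ := (hm u).1 hu
  obtain ⟨m', n', rfl⟩ := (hm v).1 hv
  refine ⟨m * n' - n * m', ?_⟩
  rw [dq_add_right, dq_add_left, dq_add_left]
  simp only [dq_smul_left, dq_smul_right, dq_self, hb, dq_swap b' b]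
  push_cast; ring

theorem basis {E : AddSubgroup Q2} (hE : Cov1 E) {u u' : Q2} (hu : u ∈ E) (hu' : u' ∈ E)
    (h : dq u u' = 1) (v : Q2) : v ∈ E ↔ ∃ m n : ℤ, v = (m:ℚ) • u + (n:ℚ) • u' := by
  constructor
  · intro hv
    obtain ⟨m, hm⟩ := dq_int hE v hv u' hu'
    obtain ⟨n, hn⟩ := dq_int hE u hu v hv
    refine ⟨m, n, ?_⟩
    rw [← hm, ← hn]
    exact eq_bv h v
  · rintro ⟨m, n, rfl⟩
    exact mem_comb hu hu' m n

theorem prim_left {E : AddSubgroup Q2} (hE : Cov1 E) {u u' : Q2} (hu : u ∈ E) (hu' : u' ∈ E)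
    (h : dq u u' = 1) : Prim E u := by
  refine ⟨hu, fun c hc => ?_⟩
  obtain ⟨m, hm⟩ := dq_int hE _ hc _ hu'
  refine ⟨m, ?_⟩
  rw [dq_smul_left, h, mul_one] at hm
  exact hm

theorem prim_right {E : AddSubgroup Q2} (hE : Cov1 E) {u u' : Q2} (hu : u ∈ E) (hu' : u' ∈ E)
    (h : dq u u' = 1) : Prim E u' := by
  refine ⟨hu', fun c hc => ?_⟩
  obtain ⟨m, hm⟩ := dq_int hE _ hu _ hc
  refine ⟨m, ?_⟩
  rw [dq_smul_right, h, mul_one] at hm
  exact hm

theorem exists_prim {E : AddSubgroup Q2} (hE : Cov1 E) {v : Q2} (hv : v ≠ 0) :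
    ∃ c : ℚ, 0 < c ∧ Prim E (c • v) := by
  obtain ⟨b, b', hb, hm⟩ := hE
  -- coordinates
  set x := dq v b' with hx
  set y := dq b v with hy
  have hv2 : v = x • b + y • b' := eq_bv hb v
  -- common denominator
  set d : ℕ := x.den * y.den with hd
  have hd0 : 0 < d := Nat.mul_pos x.den_pos y.den_pos
  have hX : (d:ℚ) * x = ((x.num * y.den : ℤ) : ℚ) := by
    rw [hd]; push_cast
    have := Rat.mul_den_eq_num x
    linear_combination (y.den : ℚ) * this
  have hY : (d:ℚ) * y = ((y.num * x.den : ℤ) : ℚ) := by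
    rw [hd]; push_cast
    have := Rat.mul_den_eq_num y
    linear_combination (x.den : ℚ) * this
  set M : ℤ := x.num * y.den with hM
  set N : ℤ := y.num * x.den with hN
  have hne : M ≠ 0 ∨ N ≠ 0 := by
    by_contra hcon
    push Not at hcon
    apply hv
    rw [hcon.1, Int.cast_zero] at hX
    rw [hcon.2, Int.cast_zero] at hY
    have hdq : (d:ℚ) ≠ 0 := by exact_mod_cast hd0.ne'
    have h1 : x = 0 := by
      rcases mul_eq_zero.1 hX with h | h
      · exact absurd h hdq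
      · exact h
    have h2 : y = 0 := by
      rcases mul_eq_zero.1 hY with h | h
      · exact absurd h hdq
      · exact h
    rw [hv2, h1, h2]; simp
  have hg : 0 < Int.gcd M N := by
    rcases hne with h | h
    · exact Int.gcd_pos_of_ne_zero_left _ h
    · exact Int.gcd_pos_of_ne_zero_right _ h
  set g : ℕ := Int.gcd M N with hgdef
  obtain ⟨a, ha⟩ : (g : ℤ) ∣ M := Int.gcd_dvd_left ..
  obtain ⟨c, hc⟩ : (g : ℤ) ∣ N := Int.gcd_dvd_right ..
  have hgq : (0:ℚ) < g := by exact_mod_cast hg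
  have hdq : (0:ℚ) < d := by exact_mod_cast hd0
  have hbez : a * Int.gcdA M N + c * Int.gcdB M N = 1 := by
    have h1 := Int.gcd_eq_gcd_ab M N
    have h2 : (g:ℤ) * (a * Int.gcdA M N + c * Int.gcdB M N) = g * 1 := by
      rw [mul_one]
      calc (g:ℤ) * (a * Int.gcdA M N + c * Int.gcdB M N)
          = (g * a) * Int.gcdA M N + (g * c) * Int.gcdB M N := by ring
        _ = M * Int.gcdA M N + N * Int.gcdB M N := by rw [← ha, ← hc]
        _ = g := by rw [← h1]
    exact mul_left_cancel₀ (by exact_mod_cast hg.ne') h2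
  have hv3 : ((d:ℚ) / g) • v = (a:ℚ) • b + (c:ℚ) • b' := by
    have hA : ((d:ℚ) / g) * x = a := by
      rw [div_mul_eq_mul_div, hX, ha]; push_cast; field_simp
    have hC : ((d:ℚ) / g) * y = c := by
      rw [div_mul_eq_mul_div, hY, hc]; push_cast; field_simp
    rw [hv2, smul_add, smul_smul, smul_smul, hA, hC]
  refine ⟨(d:ℚ) / g, by positivity, ?_, ?_⟩
  · rw [hv3]; exact (hm _).2 ⟨a, c, rfl⟩
  · intro k hk
    rw [hv3] at hk
    obtain ⟨m, n, hmn⟩ := (hm _).1 hk
    have e1' : k * a = m := by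
      have := congrArg (fun w => dq w b') hmn
      simpa [dq_add_left, dq_smul_left, hb] using this
    have e2' : k * c = n := by
      have := congrArg (fun w => dq b w) hmn
      simpa [dq_add_right, dq_smul_right, hb] using this
    refine ⟨m * Int.gcdA M N + n * Int.gcdB M N, ?_⟩
    push_cast
    rw [← e1', ← e2']
    have : ((a:ℚ) * Int.gcdA M N + c * Int.gcdB M N) = 1 := by exact_mod_cast hbez
    linear_combination (-k) * this

theorem exists_compl {E : AddSubgroup Q2} (hE : Cov1 E) {u : Q2} (hu : Prim E u) :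
    ∃ u', u' ∈ E ∧ dq u u' = 1 := by
  obtain ⟨b, b', hb, hm⟩ := hE
  obtain ⟨m, n, hmn⟩ := (hm u).1 hu.1
  have hu0 := hu.ne_zero
  have hg : 0 < Int.gcd m n := by
    by_contra hcon
    have h0 : Int.gcd m n = 0 := by omega
    rw [Int.gcd_eq_zero_iff] at h0
    apply hu0
    rw [hmn, h0.1, h0.2]; simp
  have hgq : (0:ℚ) < Int.gcd m n := by exact_mod_cast hg
  obtain ⟨a, ha⟩ : (Int.gcd m n : ℤ) ∣ m := Int.gcd_dvd_left ..
  obtain ⟨c, hc⟩ : (Int.gcd m n : ℤ) ∣ n := Int.gcd_dvd_right ..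
  have h1 : (1 / (Int.gcd m n : ℚ)) • u ∈ E := by
    apply (hm _).2
    refine ⟨a, c, ?_⟩
    have ha' : (m:ℚ) = (Int.gcd m n : ℚ) * a := by exact_mod_cast ha
    have hc' : (n:ℚ) = (Int.gcd m n : ℚ) * c := by exact_mod_cast hc
    have h2 : 1 / (Int.gcd m n : ℚ) * m = a := by
      rw [eq_comm, div_mul_eq_mul_div, eq_div_iff hgq.ne']; linarith
    have h3 : 1 / (Int.gcd m n : ℚ) * n = c := by
      rw [eq_comm, div_mul_eq_mul_div, eq_div_iff hgq.ne']; linarith
    rw [hmn, smul_add, smul_smul, smul_smul, h2, h3]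
  obtain ⟨k, hk⟩ := hu.2 _ h1
  have hk1 : (k:ℚ) * Int.gcd m n = 1 := by rw [← hk]; field_simp
  have hk2 : k * (Int.gcd m n : ℤ) = 1 := by exact_mod_cast hk1
  have hg1 : Int.gcd m n = 1 := by
    have h4 : (Int.gcd m n : ℤ) ∣ 1 := ⟨k, by linarith⟩
    have h5 := Int.eq_one_of_dvd_one (by positivity) h4
    exact_mod_cast h5
  have hbez := Int.gcd_eq_gcd_ab m n
  rw [hg1] at hbez
  refine ⟨((-Int.gcdB m n : ℤ) : ℚ) • b + ((Int.gcdA m n : ℤ) : ℚ) • b', (hm _).2 ⟨_, _, rfl⟩, ?_⟩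
  rw [hmn]
  simp only [dq_add_left, dq_add_right, dq_smul_left, dq_smul_right, dq_self, hb, dq_swap b' b]
  have hbez' : (1:ℚ) = m * Int.gcdA m n + n * Int.gcdB m n := by exact_mod_cast hbez
  push_cast
  linear_combination (-1) * hbez'

theorem covBasic : CovBasicStmt := by
  intro E hE
  refine ⟨fun v hv => exists_prim hE hv, fun u hu => exists_compl hE hu, ?_, dq_int hE, ?_⟩
  · intro u hu u' hu' h
    exact ⟨prim_left hE hu hu' h, prim_right hE hu hu' h, basis hE hu hu' h⟩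
  · intro E' hE' hle
    apply le_antisymm hle
    obtain ⟨b, b', hb, hm⟩ := hE
    have hbE : b ∈ E := (hm b).2 ⟨1, 0, by simp⟩
    have hbE' : b' ∈ E := (hm b').2 ⟨0, 1, by simp⟩
    intro v hv
    rw [basis hE' (hle hbE) (hle hbE') hb] at hv
    exact (hm v).2 hv

/-- every vector in terms of its determinants with a basis of determinant one -/
theorem cramer {u1 u2 : Q2} (h : dq u1 u2 = 1) (v : Q2) : v = dq u1 v • u2 - dq u2 v • u1 := by
  have h' : u1 0 * u2 1 - u1 1 * u2 0 = 1 := h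
  ext i; fin_cases i <;> simp [dq]
  · linear_combination (v 0) * (-h')
  · linear_combination (v 1) * (-h')

theorem dq_coord {u1 u2 : Q2} (h : dq u1 u2 = 1) (v w : Q2) :
    dq v w = dq u1 v * dq u2 w - dq u2 v * dq u1 w := by
  have h' : u1 0 * u2 1 - u1 1 * u2 0 = 1 := h
  simp only [dq]
  linear_combination (-(v 0 * w 1 - v 1 * w 0)) * h'

theorem mink : MinkStmt := by
  intro E E' _ hE' u1 _ u2 _ h12 hu1 hu2
  have hu10 : u1 ≠ 0 := by
    rintro rfl; exact hu1 E'.zero_mem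
  obtain ⟨c, hc0, hc⟩ := exists_prim hE' hu10
  have h21 : dq u2 u1 = -1 := by rw [dq_swap, h12]
  rcases lt_trichotomy c 1 with hc1 | hc1 | hc1
  · refine ⟨c • u1, hc.1, hc.ne_zero, ?_, ?_⟩
    · rw [dq_smul_right, dq_self]; simp
    · rw [dq_smul_right, h21, abs_mul, abs_neg, abs_one, mul_one, abs_of_pos hc0]; exact hc1
  · exfalso
    rw [hc1, one_smul] at hc
    exact hu1 hc.1
  obtain ⟨w, hw, hcw⟩ := exists_compl hE' hc
  rw [dq_smul_left] at hcw
  have hxw : dq u1 w = 1 / c := by field_simp; linarith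
  -- Dirichlet
  set N : ℕ := ⌊c⌋₊ with hN
  have hN1 : (N:ℚ) ≤ c := Nat.floor_le hc0.le
  have hN2 : c < N + 1 := Nat.lt_floor_add_one c
  have hNpos : 0 < N := Nat.floor_pos.2 hc1.le
  obtain ⟨j, k, hk0, hkN, hjk⟩ := Real.exists_int_int_abs_mul_sub_le ((dq u2 w / c : ℚ) : ℝ) hNpos
  have hjk' : |(k:ℚ) * (dq u2 w / c) - j| ≤ 1 / ((N:ℚ) + 1) := by
    have : ((|(k:ℚ) * (dq u2 w / c) - j| : ℚ) : ℝ) ≤ ((1 / ((N:ℚ) + 1) : ℚ) : ℝ) := by
      push_cast at hjk ⊢
      exact hjk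
    exact_mod_cast this
  have hkN' : (k:ℚ) ≤ N := by exact_mod_cast hkN
  have hk0' : (1:ℚ) ≤ k := by exact_mod_cast hk0
  set v : Q2 := (k:ℚ) • w + (j:ℚ) • (c • u1) with hv
  have hvE : v ∈ E' := mem_comb hw hc.1 k j
  have hxv : dq u1 v = k / c := by
    rw [hv, dq_add_right, dq_smul_right, dq_smul_right, dq_smul_right, dq_self, hxw]; ring
  have hyv : dq u2 v = k * dq u2 w - j * c := by
    rw [hv, dq_add_right, dq_smul_right, dq_smul_right, dq_smul_right, h21]; ring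
  have hyv1 : |dq u2 v| < 1 := by
    have h1 : dq u2 v = c * ((k:ℚ) * (dq u2 w / c) - j) := by
      rw [hyv]; field_simp
    rw [h1, abs_mul, abs_of_pos hc0]
    calc c * |(k:ℚ) * (dq u2 w / c) - j| ≤ c * (1 / ((N:ℚ) + 1)) :=
          mul_le_mul_of_nonneg_left hjk' hc0.le
      _ < 1 := by rw [mul_one_div, div_lt_one (by positivity)]; exact hN2
  have hxv0 : 0 < dq u1 v := by rw [hxv]; exact div_pos (by linarith) hc0
  have hv0 : v ≠ 0 := by
    intro h0
    rw [h0] at hxv0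
    simp [dq] at hxv0
  have hxv1 : dq u1 v ≤ 1 := by rw [hxv, div_le_one hc0]; linarith
  rcases lt_or_eq_of_le hxv1 with hlt | heq
  · exact ⟨v, hvE, hv0, by rw [abs_of_pos hxv0]; exact hlt, hyv1⟩
  -- now `v = (1, t)`
  set t : ℚ := dq u2 v with ht
  have ht0 : t ≠ 0 := by
    intro h0
    apply hu2
    have := cramer h12 v
    rw [heq, ← ht, h0, one_smul, zero_smul, sub_zero] at this
    rw [← this]; exact hvE
  obtain ⟨d, hd0, hd⟩ := exists_prim hE' hv0
  obtain ⟨q, hq⟩ : ∃ q : ℤ, (1 / d : ℚ) = q := by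
    apply hd.2
    rw [smul_smul, one_div, inv_mul_cancel₀ hd0.ne', one_smul]; exact hvE
  rcases lt_or_ge d 1 with hd1 | hd1
  · refine ⟨d • v, hd.1, hd.ne_zero, ?_, ?_⟩
    · rw [dq_smul_right, heq, mul_one, abs_of_pos hd0]; exact hd1
    · rw [dq_smul_right, abs_mul, abs_of_pos hd0]
      calc d * |t| < 1 * 1 := by
            apply mul_lt_mul'' hd1 hyv1 hd0.le (abs_nonneg _)
        _ = 1 := one_mul 1
  have hd2 : d = 1 := by
    have hq0 : (0:ℚ) < q := by rw [← hq]; positivity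
    have hq1 : (1:ℤ) ≤ q := by exact_mod_cast hq0
    have hq2 : (1:ℚ) ≤ q := by exact_mod_cast hq1
    rw [← hq, le_div_iff₀ hd0] at hq2
    linarith
  rw [hd2, one_smul] at hd
  obtain ⟨w2, hw2, hvw2⟩ := exists_compl hE' hd
  -- a general final step
  have fin : ∀ n : ℤ, (0 < t → -1 < dq u1 w2 - n ∧ dq u1 w2 - n ≤ 0) →
      (t < 0 → 0 ≤ dq u1 w2 - n ∧ dq u1 w2 - n < 1) →
      ∃ u' ∈ E', u' ≠ 0 ∧ |dq u1 u'| < 1 ∧ |dq u2 u'| < 1 := by
    intro n hn1 hn2
    set z : Q2 := ((1:ℤ):ℚ) • w2 + ((-n:ℤ):ℚ) • v with hz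
    have hzE : z ∈ E' := mem_comb hw2 hvE 1 (-n)
    have hxz : dq u1 z = dq u1 w2 - n := by
      rw [hz, dq_add_right, dq_smul_right, dq_smul_right, heq]; push_cast; ring
    have hdz : dq v z = 1 := by
      rw [hz, dq_add_right, dq_smul_right, dq_smul_right, dq_self, hvw2]; push_cast; ring
    have hyz : dq u2 z = 1 + t * dq u1 z := by
      have := dq_coord h12 v z
      rw [hdz, heq, ← ht] at this
      linarith
    set a := dq u1 z with ha
    rw [← hxz] at hn1 hn2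
    have hane : a ≠ 0 := by
      intro ha0
      rw [ha0, mul_zero, add_zero] at hyz
      have := cramer h12 z
      rw [hyz, ← ha, ha0, one_smul, zero_smul, zero_sub] at this
      apply hu1
      have h2 : u1 = -z := by rw [this]; simp
      rw [h2]; exact E'.neg_mem hzE
    have habs := abs_lt.1 hyv1
    have hz0 : z ≠ 0 := by
      intro h0
      rw [h0] at hdz
      simp [dq] at hdz
    refine ⟨z, hzE, hz0, ?_, ?_⟩
    · rcases lt_or_gt_of_ne ht0 with h | h
      · obtain ⟨h3, h4⟩ := hn2 h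
        rw [abs_lt]; constructor <;> linarith
      · obtain ⟨h3, h4⟩ := hn1 h
        rw [abs_lt]; constructor <;> linarith
    · rw [hyz, abs_lt]
      rcases lt_or_gt_of_ne ht0 with h | h
      · obtain ⟨h3, h4⟩ := hn2 h
        have h5 : 0 < a := lt_of_le_of_ne h3 hane.symm
        constructor
        · nlinarith
        · nlinarith
      · obtain ⟨h3, h4⟩ := hn1 h
        have h5 : a < 0 := lt_of_le_of_ne h4 hane
        constructor
        · nlinarith
        · nlinarith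
  rcases lt_or_gt_of_ne ht0 with h | h
  · apply fin ⌊dq u1 w2⌋ (fun h' => absurd h' (by linarith))
    intro _
    exact ⟨by linarith [Int.floor_le (dq u1 w2)], by linarith [Int.lt_floor_add_one (dq u1 w2)]⟩
  · apply fin ⌈dq u1 w2⌉ _ (fun h' => absurd h' (by linarith))
    intro _
    exact ⟨by linarith [Int.ceil_lt_add_one (dq u1 w2)], by linarith [Int.le_ceil (dq u1 w2)]⟩

end Pool.Agent.Helper4.EL
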