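import Pool.Agent.Helper88.EL.Basic

/-!
# Rational base change, measure one, bounds (module EL-BAS of MP_287ff4_al)
-/

set_option autoImplicit false

namespace Pool.Agent.Helper4.EL

open Pool.Agent.Helper88.EL
open LaurentPolynomial Matrix

/-! ### the base change `S` -/

/-- multiplication by `bas u u'` -/
noncomputable def S (u u' : Q2) : V →+ V := (Matrix.mulVecLin (bas u u')).toAddMonoidHom

theorem S_apply (u u' : Q2) (p : V) : S u u' p = (bas u u').mulVec p := rfl

theorem S_zero' (u u' : Q2) (p : V) : S u u' p 0 = C (u 0) * p 0 + C (u' 0) * p 1 := by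
  rw [S_apply, bas_mulVec]; rfl
theorem S_one' (u u' : Q2) (p : V) : S u u' p 1 = C (u 1) * p 0 + C (u' 1) * p 1 := by
  rw [S_apply, bas_mulVec]; rfl

theorem ext2 {p q : V} (h0 : p 0 = q 0) (h1 : p 1 = q 1) : p = q := by
  ext i : 1; fin_cases i
  · exact h0
  · exact h1

theorem bas_mul_bas (u u' w w' : Q2) :
    bas u u' * bas w w' = bas (bv u u' w) (bv u u' w') := by
  ext i j : 2; fin_cases i <;> fin_cases j <;>
    simp [bas, bv, Matrix.mul_apply, Fin.sum_univ_two, mul_comm]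

theorem bas_one : bas ![1, 0] ![0, 1] = 1 := by
  ext i j : 2; fin_cases i <;> fin_cases j <;> simp [bas]

/-- inverse, first column -/
def iu (u u' : Q2) : Q2 := ![u' 1, -u 1]
/-- inverse, second column -/
def iu' (u u' : Q2) : Q2 := ![-u' 0, u 0]

theorem dq_inv {u u' : Q2} (h : dq u u' = 1) : dq (iu u u') (iu' u u') = 1 := by
  simp only [dq, iu, iu', Matrix.cons_val_zero, Matrix.cons_val_one] at h ⊢
  linarith

theorem bv_inv {u u' : Q2} (h : dq u u' = 1) (v : Q2) :
    bv (iu u u') (iu' u u') (bv u u' v) = v := by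
  simp only [dq] at h
  ext i; fin_cases i <;> simp [bv, iu, iu']
  · linear_combination (v 0) * h
  · linear_combination (v 1) * h

theorem bv_inv' {u u' : Q2} (h : dq u u' = 1) (v : Q2) :
    bv u u' (bv (iu u u') (iu' u u') v) = v := by
  simp only [dq] at h
  ext i; fin_cases i <;> simp [bv, iu, iu']
  · linear_combination (v 0) * h
  · linear_combination (v 1) * h

theorem bas_mul_inv {u u' : Q2} (h : dq u u' = 1) :
    bas u u' * bas (iu u u') (iu' u u') = 1 := by
  rw [bas_mul_bas, ← bas_one]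
  have h1 : bv u u' (iu u u') = ![1, 0] := by
    simp only [dq] at h
    ext i; fin_cases i <;> simp [bv, iu]
    · linarith
    · ring
  have h2 : bv u u' (iu' u u') = ![0, 1] := by
    simp only [dq] at h
    ext i; fin_cases i <;> simp [bv, iu']
    · ring
    · linarith
  rw [h1, h2]

theorem inv_mul_bas {u u' : Q2} (h : dq u u' = 1) :
    bas (iu u u') (iu' u u') * bas u u' = 1 := by
  rw [bas_mul_bas, ← bas_one]
  have h1 : bv (iu u u') (iu' u u') u = ![1, 0] := by
    simp only [dq] at h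
    ext i; fin_cases i <;> simp [bv, iu, iu']
    · linarith
    · ring
  have h2 : bv (iu u u') (iu' u u') u' = ![0, 1] := by
    simp only [dq] at h
    ext i; fin_cases i <;> simp [bv, iu, iu']
    · ring
    · linarith
  rw [h1, h2]

theorem S_inv {u u' : Q2} (h : dq u u' = 1) (p : V) : S u u' (S (iu u u') (iu' u u') p) = p := by
  rw [S_apply, S_apply, Matrix.mulVec_mulVec, bas_mul_inv h, Matrix.one_mulVec]

theorem S_inv' {u u' : Q2} (h : dq u u' = 1) (p : V) : S (iu u u') (iu' u u') (S u u' p) = p := by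
  rw [S_apply, S_apply, Matrix.mulVec_mulVec, inv_mul_bas h, Matrix.one_mulVec]

theorem S_surj {u u' : Q2} (h : dq u u' = 1) : Function.Surjective (S u u') :=
  fun p => ⟨_, S_inv h p⟩

theorem S_inj {u u' : Q2} (h : dq u u' = 1) : Function.Injective (S u u') := fun p q hpq => by
  rw [← S_inv' h p, ← S_inv' h q, hpq]

theorem S_smul (u u' : Q2) (f : AQ) (p : V) : S u u' (f • p) = f • S u u' p := by
  rw [S_apply, S_apply, Matrix.mulVec_smul]

theorem S_dt {u u' : Q2} (h : dq u u' = 1) (p q : V) : dt (S u u' p) (S u u' q) = dt p q := by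
  have h' : (C (u 0) * C (u' 1) - C (u 1) * C (u' 0) : AQ) = 1 := by
    rw [← map_mul, ← map_mul, ← map_sub]
    have : u 0 * u' 1 - u 1 * u' 0 = 1 := h
    rw [this, map_one]
  simp only [dt, S_zero', S_one']
  linear_combination (p 0 * q 1 - p 1 * q 0) * h'

theorem S_cst (u u' v : Q2) : S u u' (cst v) = cst (bv u u' v) := bas_mulVec_cst u u' v

theorem S_P (u u' : Q2) (p : V) : P 0 0 (S u u' p) = S u u' (P 0 0 p) := by
  apply ext2
  · rw [P_zero', S_zero', S_zero', map_add, tr_C_mul, tr_C_mul, P_zero', P_one']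
  · rw [P_one', S_one', S_one', map_add, tr_C_mul, tr_C_mul, P_zero', P_one']

theorem cm_eq (u u' : Q2) (L : AddSubgroup V) : cm (bas u u') L = L.comap (S u u') := rfl

theorem relIndex_S {u u' : Q2} (h : dq u u' = 1) (H K : AddSubgroup V) :
    (H.comap (S u u')).relIndex (K.comap (S u u')) = H.relIndex K := by
  rw [AddSubgroup.relIndex_comap, AddSubgroup.map_comap_eq_self_of_surjective (S_surj h)]

theorem comap_P_S (u u' : Q2) (L : AddSubgroup V) :
    (L.comap (S u u')).comap (P 0 0) = (L.comap (P 0 0)).comap (S u u') := by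
  ext p
  simp only [AddSubgroup.mem_comap]
  rw [S_P]

/-- one direction of the base change for the lattice at zero -/
theorem E0_bas {u u' : Q2} {L : AddSubgroup V} {v : Q2}
    (hv : v ∈ E0 (cm (bas u u') L)) : bv u u' v ∈ E0 L := by
  obtain ⟨p, hp, h1, h2⟩ := hv
  refine ⟨S u u' p, hp, fun i n hn => ?_, fun i => ?_⟩
  · fin_cases i
    · simp [S_zero', h1 _ n hn]
    · simp [S_one', h1 _ n hn]
  · fin_cases i
    · simp [S_zero', h2, bv]; ring
    · simp [S_one', h2, bv]; ring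

theorem Ei_bas {u u' : Q2} {L : AddSubgroup V} {v : Q2}
    (hv : v ∈ Ei (cm (bas u u') L)) : bv u u' v ∈ Ei L := by
  obtain ⟨p, hp, h1, h2⟩ := hv
  refine ⟨S u u' p, hp, fun i n hn => ?_, fun i => ?_⟩
  · fin_cases i
    · simp [S_zero', h1 _ n hn]
    · simp [S_one', h1 _ n hn]
  · fin_cases i
    · simp [S_zero', h2, bv]; ring
    · simp [S_one', h2, bv]; ring

theorem cm_inv {u u' : Q2} (h : dq u u' = 1) (L : AddSubgroup V) :
    cm (bas (iu u u') (iu' u u')) (cm (bas u u') L) = L := by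
  rw [← cm_mul, bas_mul_inv h, cm_one]

theorem E0_bas_iff {u u' : Q2} (h : dq u u' = 1) {L : AddSubgroup V} {v : Q2} :
    v ∈ E0 (cm (bas u u') L) ↔ bv u u' v ∈ E0 L := by
  refine ⟨E0_bas, fun hv => ?_⟩
  rw [← cm_inv h L] at hv
  have := E0_bas hv
  rwa [bv_inv h] at this

theorem Ei_bas_iff {u u' : Q2} (h : dq u u' = 1) {L : AddSubgroup V} {v : Q2} :
    v ∈ Ei (cm (bas u u') L) ↔ bv u u' v ∈ Ei L := by
  refine ⟨Ei_bas, fun hv => ?_⟩
  rw [← cm_inv h L] at hv
  have := Ei_bas hv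
  rwa [bv_inv h] at this

theorem bv_inj {u u' : Q2} (h : dq u u' = 1) {v w : Q2} (hvw : bv u u' v = bv u u' w) : v = w := by
  rw [← bv_inv h v, ← bv_inv h w, hvw]

theorem bv_comb (u u' v w : Q2) (m n : ℚ) :
    bv u u' (m • v + n • w) = m • bv u u' v + n • bv u u' w := by
  ext i; simp [bv]; ring

theorem cov1_bas {u u' : Q2} (h : dq u u' = 1) {E F : AddSubgroup Q2} (hE : Cov1 E)
    (hF : ∀ v, v ∈ F ↔ bv u u' v ∈ E) : Cov1 F := by
  obtain ⟨b, b', hb, hm⟩ := hE
  refine ⟨bv (iu u u') (iu' u u') b, bv (iu u u') (iu' u u') b', ?_, fun v => ?_⟩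
  · rw [dq_bv, dq_inv h, hb, one_mul]
  · rw [hF, hm]
    constructor
    · rintro ⟨m, n, hmn⟩
      refine ⟨m, n, bv_inj h ?_⟩
      rw [hmn, bv_comb, bv_inv' h, bv_inv' h]
    · rintro ⟨m, n, rfl⟩
      refine ⟨m, n, ?_⟩
      rw [bv_comb, bv_inv' h, bv_inv' h]

theorem tt_bas {u u' : Q2} (h : dq u u' = 1) (L : AddSubgroup V) : tt (cm (bas u u') L) = tt L := by
  rw [tt, cm_eq, comap_P_S, relIndex_S h, tt]

theorem lat_bas {u u' : Q2} (h : dq u u' = 1) {L : AddSubgroup V} (hL : IsLat L) :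
    IsLat (cm (bas u u') L) where
  smul f hf p hp := by
    rw [cm_eq, AddSubgroup.mem_comap] at hp ⊢
    rw [S_smul]; exact hL.smul f hf _ hp
  det p hp q hq := by
    rw [cm_eq, AddSubgroup.mem_comap] at hp hq
    rw [← S_dt h]; exact hL.det _ hp _ hq
  tors p := by
    obtain ⟨n, hn, hnp⟩ := hL.tors (S u u' p)
    refine ⟨n, hn, ?_⟩
    rw [cm_eq, AddSubgroup.mem_comap, map_nsmul]; exact hnp
  prime l hl f hf w hw := by
    rintro ⟨w', hw', heq⟩
    rw [cm_eq, AddSubgroup.mem_comap] at hw hw'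
    rcases hL.prime l hl f hf _ hw ⟨_, hw', by rw [← S_smul, heq, map_nsmul]⟩ with h1 | ⟨z, hz, hz'⟩
    · exact Or.inl h1
    · refine Or.inr ⟨S (iu u u') (iu' u u') z, ?_, ?_⟩
      · rw [cm_eq, AddSubgroup.mem_comap, S_inv h]; exact hz
      · apply S_inj h
        rw [hz', map_nsmul, S_inv h]
  cov0 := cov1_bas h hL.cov0 fun _ => E0_bas_iff h
  covi := cov1_bas h hL.covi fun _ => Ei_bas_iff h
  fin := by rw [tt_bas h]; exact hL.fin

theorem Ui_bas {u u' : Q2} (h : dq u u' = 1) (L : AddSubgroup V) (v : Q2) :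
    Ui (cm (bas u u') L) v = (Ui L (bv u u' v)).comap (S u u') := by
  ext p
  change (S u u' p ∈ L ∧ tr 0 (dt (cst v) p) = 0) ↔
    (S u u' p ∈ L ∧ tr 0 (dt (cst (bv u u' v)) (S u u' p)) = 0)
  rw [← S_cst, S_dt h]

theorem U0_bas {u u' : Q2} (h : dq u u' = 1) (L : AddSubgroup V) (v : Q2) :
    U0 (cm (bas u u') L) v = (U0 L (bv u u' v)).comap (S u u') := by
  ext p
  change (S u u' p ∈ L ∧ tr 0 (dt (cst v) p) = dt (cst v) p) ↔
    (S u u' p ∈ L ∧ tr 0 (dt (cst (bv u u' v)) (S u u' p)) = dt (cst (bv u u' v)) (S u u' p))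
  rw [← S_cst, S_dt h]

theorem ord_bas (u u' : Q2) (L : AddSubgroup V) (v : Q2) :
    ord (cm (bas u u') L) v = ord L (bv u u' v) := by
  have key : ∀ n : ℕ, ord (cm (bas u u') L) v ∣ n ↔ ord L (bv u u' v) ∣ n := fun n => by
    rw [ord_dvd_iff, ord_dvd_iff, cm_eq, AddSubgroup.mem_comap, map_nsmul, S_cst]
  exact Nat.dvd_antisymm ((key _).2 dvd_rfl) ((key _).1 dvd_rfl)

theorem bas_stmt : BasStmt := by
  intro L hL u u' h
  refine ⟨lat_bas h hL, tt_bas h L, fun v => ⟨E0_bas_iff h, Ei_bas_iff h, ?_, ord_bas u u' L v, ?_, ?_⟩⟩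
  · change S u u' (cst v) ∈ L ↔ cst (bv u u' v) ∈ L
    rw [S_cst]
  · rw [Ri, Ui_bas h, cm_eq, comap_P_S, relIndex_S h, Ri]
  · rw [R0, U0_bas h, cm_eq, comap_P_S, relIndex_S h, R0]

/-! ### measure one -/

theorem tt_eq_one_iff {L : AddSubgroup V} : tt L = 1 ↔ ∀ p ∈ L, P 0 0 p ∈ L := by
  rw [tt, AddSubgroup.relIndex_eq_one]
  rfl

theorem tt_A2 : tt A2 = 1 := by
  rw [tt_eq_one_iff]
  intro p hp i n
  fin_cases i
  · change ∃ m : ℤ, (tr 0 (p 0)).coeff n = m
    rw [coeff_tr]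
    split_ifs
    · exact hp 0 n
    · exact ⟨0, by simp⟩
  · change ∃ m : ℤ, (tr 0 (p 1)).coeff n = m
    rw [coeff_tr]
    split_ifs
    · exact hp 1 n
    · exact ⟨0, by simp⟩

theorem P_coord (i : Fin 2) (p : V) : P 0 0 p i = tr 0 (p i) := by
  fin_cases i <;> rfl

theorem tOne : TOneStmt := by
  intro L hL
  constructor
  · intro ht v hv
    rw [tt_eq_one_iff] at ht
    obtain ⟨p, hp, h1, h2⟩ := hv
    have h3 := ht _ ((hL.T_smul (-1)).2 hp)
    have h4 := (hL.T_smul 1).2 h3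
    have h5 : (T 1 : AQ) • P 0 0 ((T (-1) : AQ) • p) = p - cst v := by
      ext i n
      rw [Pi.smul_apply, smul_eq_mul, coeff_T_mul, P_coord, coeff_tr, Pi.smul_apply, smul_eq_mul,
        coeff_T_mul, Pi.sub_apply, cst_apply, AddMonoidAlgebra.coeff_sub, Finsupp.sub_apply, C_apply]
      have e : n - 1 - -1 = n := by ring
      rw [e]
      rcases lt_trichotomy n 0 with hn | hn | hn
      · rw [if_neg (by omega), if_neg (by omega), h1 i n hn, sub_zero]
      · subst hn
        rw [if_neg (by omega), if_pos rfl, h2, sub_self]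
      · rw [if_pos (by omega), if_neg (by omega), sub_zero]
    rw [h5] at h4
    have h6 := L.sub_mem hp h4
    rw [sub_sub_cancel] at h6
    exact h6
  · intro h
    obtain ⟨u, u', hd, hu, hu'⟩ : ∃ u u' : Q2, dq u u' = 1 ∧ cst u ∈ L ∧ cst u' ∈ L := by
      rcases h with h | h
      · obtain ⟨b, b', hb, hm⟩ := hL.cov0
        exact ⟨b, b', hb, h ((hm b).2 ⟨1, 0, by simp⟩), h ((hm b').2 ⟨0, 1, by simp⟩)⟩
      · obtain ⟨b, b', hb, hm⟩ := hL.covi
        exact ⟨b, b', hb, h ((hm b).2 ⟨1, 0, by simp⟩), h ((hm b').2 ⟨0, 1, by simp⟩)⟩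
    have key : cm (bas u u') L = A2 := by
      ext p
      rw [cm_eq, AddSubgroup.mem_comap, mem_A2']
      have hSp : S u u' p = p 0 • cst u + p 1 • cst u' := by
        apply ext2
        · rw [S_zero']; simp [mul_comm]
        · rw [S_one']; simp [mul_comm]
      constructor
      · intro hp
        have a0 : p 0 = dt (S u u' p) (cst u') := by
          have : cst u' = S u u' (cst e2) := by rw [S_cst, bv_e2]
          rw [this, S_dt hd]; simp [dt, e2]
        have a1 : p 1 = dt (cst u) (S u u' p) := by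
          have : cst u = S u u' (cst e1) := by rw [S_cst, bv_e1]
          rw [this, S_dt hd]; simp [dt, e1]
        exact ⟨by rw [a0]; exact hL.det _ hp _ hu', by rw [a1]; exact hL.det _ hu _ hp⟩
      · rintro ⟨h0, h1⟩
        rw [hSp]
        exact L.add_mem (hL.smul _ h0 _ hu) (hL.smul _ h1 _ hu')
    refine ⟨?_, u, u', hd, key⟩
    rw [← tt_bas hd L, key, tt_A2]

/-! ### bounds -/

theorem ord_le_tt {L : AddSubgroup V} (hL : IsLat L) {m : Q2} (hm : Iso L m) :
    ord L m ≤ tt L := by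
  obtain ⟨p, hp, p1, p2⟩ := hm.1.1
  obtain ⟨q, hq, q1, q2⟩ := hm.2.1
  have hr : p - q ∈ L := L.sub_mem hp hq
  set K : AddSubgroup L := (L.comap (P 0 0)).addSubgroupOf L with hK
  have hcard : Nat.card (L ⧸ K) = tt L := rfl
  have hP : P 0 0 (p - q) = p - cst m := by
    ext i n
    rw [P_coord, coeff_tr, Pi.sub_apply, Pi.sub_apply, AddMonoidAlgebra.coeff_sub,
      Finsupp.sub_apply, AddMonoidAlgebra.coeff_sub, Finsupp.sub_apply, cst_apply, C_apply]
    rcases lt_trichotomy n 0 with hn | hn | hn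
    · rw [if_neg (by omega), if_neg (by omega), p1 i n hn, sub_zero]
    · subst hn
      rw [if_pos le_rfl, if_pos rfl, q2]
    · rw [if_pos hn.le, if_neg (by omega), q1 i n hn]
  have key : ∀ n : ℕ, addOrderOf (QuotientAddGroup.mk (⟨p - q, hr⟩ : L) : L ⧸ K) ∣ n ↔
      ord L m ∣ n := fun n => by
    rw [addOrderOf_dvd_iff_nsmul_eq_zero, ← QuotientAddGroup.mk_nsmul,
      QuotientAddGroup.eq_zero_iff, ord_dvd_iff, hK, AddSubgroup.mem_addSubgroupOf,
      AddSubgroup.mem_comap]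
    have : ((n • (⟨p - q, hr⟩ : L) : L) : V) = n • (p - q) := rfl
    rw [this, map_nsmul, hP, smul_sub]
    constructor
    · intro h
      have := L.sub_mem (L.nsmul_mem hp n) h
      rwa [sub_sub_cancel] at this
    · intro h
      exact L.sub_mem (L.nsmul_mem hp n) h
  have h1 : ord L m ∣ Nat.card (L ⧸ K) := by
    rw [← key]; exact addOrderOf_dvd_natCard _
  rw [hcard] at h1
  exact Nat.le_of_dvd (Nat.pos_of_ne_zero hL.fin) h1

theorem bound : BoundStmt := by
  intro L hL m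
  refine ⟨ord_le_tt hL, ?_, ?_, hL.ord_pos m⟩
  · intro h0
    have h1 : Ui L m ≤ L := fun p hp => hp.1
    exact hL.fin (AddSubgroup.relIndex_eq_zero_of_le_right h1 h0)
  · intro h0
    have h1 : U0 L m ≤ L := fun p hp => hp.1
    exact hL.fin (AddSubgroup.relIndex_eq_zero_of_le_right h1 h0)

end Pool.Agent.Helper4.EL
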